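import Pool.Agent.MP_39fec4_gt.Dat.B02
import Pool.Agent.MP_39fec4_gt.Dat.Gam

set_option autoImplicit false
set_option maxRecDepth 100000

namespace Pool.Agent.MP_39fec4_gt.K

theorem b02a : R.OKa gamF b02 :=
  ⟨by decide +kernel,
    by decide +kernel,
    by decide +kernel,
    by decide +kernel,
    by decide +kernel⟩

end Pool.Agent.MP_39fec4_gt.K
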