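import Pool.Agent.MP_39fec4_gt.Dat.Gam

set_option autoImplicit false
set_option maxRecDepth 100000

namespace Pool.Agent.MP_39fec4_gt.K

theorem gamC0 : R.gamChkA 0 (R.nth gamL 0) = true := by decide +kernel

theorem gamC1 : R.gamChkA 1 (R.nth gamL 1) = true := by decide +kernel

theorem gamC2 : R.gamChkA 2 (R.nth gamL 2) = true := by decide +kernel

theorem gamC3 : R.gamChkA 3 (R.nth gamL 3) = true := by decide +kernel

end Pool.Agent.MP_39fec4_gt.K
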