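import Pool.Agent.MP_39fec4_gt.Dat.Gam

set_option autoImplicit false
set_option maxRecDepth 100000

namespace Pool.Agent.MP_39fec4_gt.K

theorem gamC4 : R.gamChkA 4 (R.nth gamL 4) = true := by decide +kernel

theorem gamC5 : R.gamChkA 5 (R.nth gamL 5) = true := by decide +kernel

theorem gamC6 : R.gamChkA 6 (R.nth gamL 6) = true := by decide +kernel

theorem gamC7 : R.gamChkA 7 (R.nth gamL 7) = true := by decide +kernel

end Pool.Agent.MP_39fec4_gt.K
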