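import Pool.Agent.MP_39fec4_gt.Dat.Gam

set_option autoImplicit false
set_option maxRecDepth 100000

namespace Pool.Agent.MP_39fec4_gt.K

theorem gamC8 : R.gamChkA 8 (R.nth gamL 8) = true := by decide +kernel

theorem gamC9 : R.gamChkA 9 (R.nth gamL 9) = true := by decide +kernel

theorem gamC10 : R.gamChkA 10 (R.nth gamL 10) = true := by decide +kernel

theorem gamC11 : R.gamChkA 11 (R.nth gamL 11) = true := by decide +kernel

end Pool.Agent.MP_39fec4_gt.K
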