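import Pool.Agent.MP_39fec4_gt.Dat.Gam

set_option autoImplicit false
set_option maxRecDepth 100000

namespace Pool.Agent.MP_39fec4_gt.K

theorem gamC12 : R.gamChkA 12 (R.nth gamL 12) = true := by decide +kernel

theorem gamC13 : R.gamChkA 13 (R.nth gamL 13) = true := by decide +kernel

theorem gamC14 : R.gamChkA 14 (R.nth gamL 14) = true := by decide +kernel

theorem gamC15 : R.gamChkA 15 (R.nth gamL 15) = true := by decide +kernel

end Pool.Agent.MP_39fec4_gt.K
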