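import Pool.Agent.MP_39fec4_gt.RBridge
import Pool.Agent.MP_39fec4_gt.Dat.GamC0
import Pool.Agent.MP_39fec4_gt.Dat.GamC1
import Pool.Agent.MP_39fec4_gt.Dat.GamC2
import Pool.Agent.MP_39fec4_gt.Dat.GamC3
import Pool.Agent.MP_39fec4_gt.Dat.B01a
import Pool.Agent.MP_39fec4_gt.Dat.B01b
import Pool.Agent.MP_39fec4_gt.Dat.B01c
import Pool.Agent.MP_39fec4_gt.Dat.B02a
import Pool.Agent.MP_39fec4_gt.Dat.B02b
import Pool.Agent.MP_39fec4_gt.Dat.B02c
import Pool.Agent.MP_39fec4_gt.Dat.B03a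
import Pool.Agent.MP_39fec4_gt.Dat.B03b
import Pool.Agent.MP_39fec4_gt.Dat.B03c
import Pool.Agent.MP_39fec4_gt.Dat.B04a
import Pool.Agent.MP_39fec4_gt.Dat.B04b
import Pool.Agent.MP_39fec4_gt.Dat.B04c
import Pool.Agent.MP_39fec4_gt.Dat.B05a
import Pool.Agent.MP_39fec4_gt.Dat.B05b
import Pool.Agent.MP_39fec4_gt.Dat.B05c
import Pool.Agent.MP_39fec4_gt.Dat.B06a
import Pool.Agent.MP_39fec4_gt.Dat.B06b
import Pool.Agent.MP_39fec4_gt.Dat.B06c
import Pool.Agent.MP_39fec4_gt.Dat.B07a
import Pool.Agent.MP_39fec4_gt.Dat.B07b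
import Pool.Agent.MP_39fec4_gt.Dat.B07c
import Pool.Agent.MP_39fec4_gt.Dat.B08a
import Pool.Agent.MP_39fec4_gt.Dat.B08b
import Pool.Agent.MP_39fec4_gt.Dat.B08c
import Pool.Agent.MP_39fec4_gt.Dat.B09a
import Pool.Agent.MP_39fec4_gt.Dat.B09b
import Pool.Agent.MP_39fec4_gt.Dat.B09c
import Pool.Agent.MP_39fec4_gt.Dat.B10a
import Pool.Agent.MP_39fec4_gt.Dat.B10b
import Pool.Agent.MP_39fec4_gt.Dat.B10c
import Pool.Agent.MP_39fec4_gt.Dat.B11a
import Pool.Agent.MP_39fec4_gt.Dat.B11b
import Pool.Agent.MP_39fec4_gt.Dat.B11c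
import Pool.Agent.MP_39fec4_gt.Dat.B12a
import Pool.Agent.MP_39fec4_gt.Dat.B12b
import Pool.Agent.MP_39fec4_gt.Dat.B12c
import Pool.Agent.MP_39fec4_gt.Dat.B13a
import Pool.Agent.MP_39fec4_gt.Dat.B13b
import Pool.Agent.MP_39fec4_gt.Dat.B13c
import Pool.Agent.MP_39fec4_gt.Dat.B14a
import Pool.Agent.MP_39fec4_gt.Dat.B14b
import Pool.Agent.MP_39fec4_gt.Dat.B14c
import Pool.Agent.MP_39fec4_gt.Dat.B15a
import Pool.Agent.MP_39fec4_gt.Dat.B15b
import Pool.Agent.MP_39fec4_gt.Dat.B15c
import Pool.Agent.MP_39fec4_gt.Dat.B16a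
import Pool.Agent.MP_39fec4_gt.Dat.B16b
import Pool.Agent.MP_39fec4_gt.Dat.B16c
import Pool.Agent.MP_39fec4_gt.Dat.B17a
import Pool.Agent.MP_39fec4_gt.Dat.B17b
import Pool.Agent.MP_39fec4_gt.Dat.B17c

set_option autoImplicit false
set_option maxRecDepth 100000

namespace Pool.Agent.MP_39fec4_gt.K

theorem gamC : ∀ c, c < 16 → R.gamChkA c (R.nth gamL c) = true
  | 0, _ => gamC0
  | 1, _ => gamC1
  | 2, _ => gamC2
  | 3, _ => gamC3
  | 4, _ => gamC4
  | 5, _ => gamC5
  | 6, _ => gamC6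
  | 7, _ => gamC7
  | 8, _ => gamC8
  | 9, _ => gamC9
  | 10, _ => gamC10
  | 11, _ => gamC11
  | 12, _ => gamC12
  | 13, _ => gamC13
  | 14, _ => gamC14
  | 15, _ => gamC15
  | n + 16, h => absurd h (Nat.not_lt.2 (Nat.le_add_left 16 n))

theorem gamG : GamOK gamF := R.gam_of gamC

theorem b01r : Rng 155 195 :=
  R.rng_of gamG b01a b01b b01c (by decide +kernel) (by decide +kernel)

theorem b02r : Rng 195 235 :=
  R.rng_of gamG b02a b02b b02c (by decide +kernel) (by decide +kernel)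

theorem b03r : Rng 232 296 :=
  R.rng_of gamG b03a b03b b03c (by decide +kernel) (by decide +kernel)

theorem b04r : Rng 296 360 :=
  R.rng_of gamG b04a b04b b04c (by decide +kernel) (by decide +kernel)

theorem b05r : Rng 360 440 :=
  R.rng_of gamG b05a b05b b05c (by decide +kernel) (by decide +kernel)

theorem b06r : Rng 440 520 :=
  R.rng_of gamG b06a b06b b06c (by decide +kernel) (by decide +kernel)

theorem b07r : Rng 520 600 :=
  R.rng_of gamG b07a b07b b07c (by decide +kernel) (by decide +kernel)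

theorem b08r : Rng 600 680 :=
  R.rng_of gamG b08a b08b b08c (by decide +kernel) (by decide +kernel)

theorem b09r : Rng 680 744 :=
  R.rng_of gamG b09a b09b b09c (by decide +kernel) (by decide +kernel)

theorem b10r : Rng 744 808 :=
  R.rng_of gamG b10a b10b b10c (by decide +kernel) (by decide +kernel)

theorem b11r : Rng 808 856 :=
  R.rng_of gamG b11a b11b b11c (by decide +kernel) (by decide +kernel)

theorem b12r : Rng 856 936 :=
  R.rng_of gamG b12a b12b b12c (by decide +kernel) (by decide +kernel)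

theorem b13r : Rng 936 1048 :=
  R.rng_of gamG b13a b13b b13c (by decide +kernel) (by decide +kernel)

theorem b14r : Rng 1048 1184 :=
  R.rng_of gamG b14a b14b b14c (by decide +kernel) (by decide +kernel)

theorem b15r : Rng 1184 1344 :=
  R.rng_of gamG b15a b15b b15c (by decide +kernel) (by decide +kernel)

theorem b16r : Rng 1344 1520 :=
  R.rng_of gamG b16a b16b b16c (by decide +kernel) (by decide +kernel)

theorem b17r : Rng 1520 1712 :=
  R.rng_of gamG b17a b17b b17c (by decide +kernel) (by decide +kernel)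

theorem rngAll : Rng 155 1712 :=
  ((((((((((((((((b01r.trans b02r (by norm_num)).trans b03r (by norm_num)).trans b04r (by
    norm_num)).trans b05r (by norm_num)).trans b06r (by norm_num)).trans b07r (by
    norm_num)).trans b08r (by norm_num)).trans b09r (by norm_num)).trans b10r (by
    norm_num)).trans b11r (by norm_num)).trans b12r (by norm_num)).trans b13r (by
    norm_num)).trans b14r (by norm_num)).trans b15r (by norm_num)).trans b16r (by
    norm_num)).trans b17r (by norm_num))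

end Pool.Agent.MP_39fec4_gt.K
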